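import Pool.Agent.H90.Closed.Classes

set_option autoImplicit false

namespace Pool.Agent.Results.MP_432bcd_lc.ForallRComplete

open Pool.Agent.H90.Closed

/-- CLOSEDNESS of arbitrary semialgebraic sets is `∀ℝ`-complete, whatever the sets `E` and `F` of the
exponents allowed in the monomials of the inputs of CLOSEDNESS and of the existential theory of the
reals are (`{1}`: monomials are products of variables; `Set.univ`: arbitrary exponents in binary). -/
theorem result (E F : Set ℕ) (hE : 1 ∈ E) (hF : 1 ∈ F) :
    ForallRComplete F (Closedness E) :=
  closedness_complete E F hE hF

end Pool.Agent.Results.MP_432bcd_lc.ForallRComplete
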